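import Pool.Agent.Helper72.CO.Defs2

/-!
# Division by a polynomial, entire functions of polynomial growth
(module for helper72)
-/

set_option autoImplicit false

open Set Filter Topology Metric Complex Polynomial

namespace Pool.Agent.Helper45.CO

theorem div : Pool.Agent.Helper72.CO.S_DIV := by
  intro a b c d W ha hW hb hc hd
  have key : ∀ (n : ℕ) (H : ℂ → ℂ) (q : ℂ[X]), q.natDegree = n → q ≠ 0 → DifferentiableOn ℂ H W →
      (∀ z ∈ W, a * H z ^ 3 + b z * q.eval z * H z ^ 2 + c z * q.eval z ^ 2 * H z +
        d z * q.eval z ^ 3 = 0) →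
      ∃ s : ℂ → ℂ, DifferentiableOn ℂ s W ∧ (∀ z ∈ W, H z = q.eval z * s z) ∧
        ∀ z ∈ W, a * s z ^ 3 + b z * s z ^ 2 + c z * s z + d z = 0 := by
    intro n
    induction n with
    | zero =>
      intro H q hqn hq hH hE
      obtain ⟨κ, rfl⟩ : ∃ κ, q = C κ := ⟨_, Polynomial.eq_C_of_natDegree_eq_zero hqn⟩
      have hκ : κ ≠ 0 := by
        rintro rfl
        exact hq (by simp)
      refine ⟨fun z => κ⁻¹ * H z, hH.const_mul _, fun z _ => ?_, fun z hz => ?_⟩
      · rw [eval_C]
        field_simp
      · have := hE z hz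
        simp only [eval_C] at this
        have e : a * (κ⁻¹ * H z) ^ 3 + b z * (κ⁻¹ * H z) ^ 2 + c z * (κ⁻¹ * H z) + d z =
            κ⁻¹ ^ 3 * (a * H z ^ 3 + b z * κ * H z ^ 2 + c z * κ ^ 2 * H z + d z * κ ^ 3) := by
          field_simp
        rw [e, this, mul_zero]
    | succ n ih =>
      intro H q hqn hq hH hE
      by_cases hroot : ∃ z₀ ∈ W, q.eval z₀ = 0
      · obtain ⟨z₀, hz₀, hz₀q⟩ := hroot
        obtain ⟨q1, hq1⟩ := Polynomial.dvd_iff_isRoot.2 hz₀q
        have hq10 : q1 ≠ 0 := by
          rintro rfl
          exact hq (by rw [hq1, mul_zero])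
        have hdeg : q1.natDegree = n := by
          have := congrArg natDegree hq1
          rw [natDegree_mul (X_sub_C_ne_zero z₀) hq10, natDegree_X_sub_C, hqn] at this
          omega
        have hH0 : H z₀ = 0 := by
          have := hE z₀ hz₀
          rw [hz₀q] at this
          have h2 : a * H z₀ ^ 3 = 0 := by linear_combination this
          exact pow_eq_zero_iff (three_ne_zero) |>.1 ((mul_eq_zero.1 h2).resolve_left ha)
        have hH1 : DifferentiableOn ℂ (dslope H z₀) W :=
          (Complex.differentiableOn_dslope (hW.mem_nhds hz₀)).2 hH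
        have hHz : ∀ z, H z = (z - z₀) * dslope H z₀ z := by
          intro z
          have := sub_smul_dslope H z₀ z
          rw [smul_eq_mul, hH0, sub_zero] at this
          exact this.symm
        have hqz : ∀ z, q.eval z = (z - z₀) * q1.eval z := by
          intro z
          rw [hq1, eval_mul, eval_sub, eval_X, eval_C]
        let E : ℂ → ℂ := fun z => a * dslope H z₀ z ^ 3 + b z * q1.eval z * dslope H z₀ z ^ 2 +
          c z * q1.eval z ^ 2 * dslope H z₀ z + d z * q1.eval z ^ 3
        have hEne : ∀ z ∈ W, z ≠ z₀ → E z = 0 := by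
          intro z hz hne
          have h1 := hE z hz
          rw [hHz z, hqz z] at h1
          have h2 : (z - z₀) ^ 3 * E z = 0 := by
            change (z - z₀) ^ 3 * (a * dslope H z₀ z ^ 3 + b z * q1.eval z * dslope H z₀ z ^ 2 +
              c z * q1.eval z ^ 2 * dslope H z₀ z + d z * q1.eval z ^ 3) = 0
            linear_combination h1
          exact (mul_eq_zero.1 h2).resolve_left (pow_ne_zero _ (sub_ne_zero.2 hne))
        have hEc : ContinuousAt E z₀ := by
          have h1 := hW.mem_nhds hz₀
          have e1 := hb.continuousAt h1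
          have e2 := hc.continuousAt h1
          have e3 := hd.continuousAt h1
          have e4 := hH1.continuousOn.continuousAt h1
          have e5 : ContinuousAt (fun z => q1.eval z) z₀ := q1.continuous.continuousAt
          exact (((continuousAt_const.mul (e4.pow 3)).add ((e1.mul e5).mul (e4.pow 2))).add
            ((e2.mul (e5.pow 2)).mul e4)).add (e3.mul (e5.pow 3))
        have hE0 : E z₀ = 0 := by
          have h1 : Tendsto E (𝓝[≠] z₀) (𝓝 (E z₀)) := hEc.tendsto.mono_left nhdsWithin_le_nhds
          have h2 : Tendsto E (𝓝[≠] z₀) (𝓝 0) := by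
            refine tendsto_const_nhds.congr' ?_
            filter_upwards [nhdsWithin_le_nhds (hW.mem_nhds hz₀), self_mem_nhdsWithin] with z hz hne
            exact (hEne z hz hne).symm
          exact tendsto_nhds_unique h1 h2
        obtain ⟨s, hs1, hs2, hs3⟩ := ih (dslope H z₀) q1 hdeg hq10 hH1 (by
          intro z hz
          by_cases hne : z = z₀
          · rw [hne]
            exact hE0
          · exact hEne z hz hne)
        refine ⟨s, hs1, fun z hz => ?_, hs3⟩
        rw [hHz z, hqz z, hs2 z hz]
        ring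
      · push Not at hroot
        refine ⟨fun z => H z / q.eval z, hH.div q.differentiable.differentiableOn hroot,
          fun z hz => ?_, fun z hz => ?_⟩
        · have := hroot z hz
          field_simp
        · have h1 := hroot z hz
          have e : a * (H z / q.eval z) ^ 3 + b z * (H z / q.eval z) ^ 2 + c z * (H z / q.eval z) +
              d z = (a * H z ^ 3 + b z * q.eval z * H z ^ 2 + c z * q.eval z ^ 2 * H z +
                d z * q.eval z ^ 3) / q.eval z ^ 3 := by
            field_simp
          rw [e, hE z hz, zero_div]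
  intro H q hq hH hE
  exact key _ H q rfl hq hH hE

theorem ent : Pool.Agent.Helper72.CO.S_ENT := by
  intro H n
  induction n generalizing H with
  | zero =>
    intro C R hH hb
    have h1 : Bornology.IsBounded (range H) := by
      obtain ⟨M, hM⟩ := ((isCompact_closedBall (0 : ℂ) R).image hH.continuous).isBounded.subset_closedBall 0
      rw [isBounded_iff_forall_norm_le]
      refine ⟨max M C, ?_⟩
      rintro _ ⟨z, rfl⟩
      by_cases hz : R ≤ ‖z‖
      · have := hb z hz
        rw [pow_zero, mul_one] at this
        exact this.trans (le_max_right _ _)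
      · have h2 : z ∈ closedBall (0 : ℂ) R := by
          rw [mem_closedBall, dist_zero_right]
          linarith
        have h3 := hM ⟨z, h2, rfl⟩
        rw [mem_closedBall, dist_zero_right] at h3
        exact h3.trans (le_max_left _ _)
    refine ⟨Polynomial.C (H 0), fun z => ?_⟩
    rw [eval_C]
    exact hH.apply_eq_apply_of_bounded h1 z 0
  | succ n ih =>
    intro C R hH hb
    have hH1 : Differentiable ℂ (dslope H 0) := by
      rw [← differentiableOn_univ]
      exact (Complex.differentiableOn_dslope univ_mem).2 hH.differentiableOn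
    have hHz : ∀ z, H z = H 0 + z * dslope H 0 z := by
      intro z
      have := sub_smul_dslope H 0 z
      rw [smul_eq_mul, sub_zero] at this
      linear_combination (-1) * this
    obtain ⟨p, hp⟩ := ih (dslope H 0) (|C| + ‖H 0‖) (max R 1) hH1 (by
      intro z hz
      have h1 : 1 ≤ ‖z‖ := (le_max_right _ _).trans hz
      have h2 : R ≤ ‖z‖ := (le_max_left _ _).trans hz
      have h3 := hb z h2
      have h4 : ‖z‖ * ‖dslope H 0 z‖ ≤ ‖H z‖ + ‖H 0‖ := by
        rw [← norm_mul]
        have : z * dslope H 0 z = H z - H 0 := by rw [hHz z]; ring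
        rw [this]
        exact norm_sub_le _ _
      have h5 : C * ‖z‖ ^ (n + 1) ≤ |C| * ‖z‖ ^ (n + 1) :=
        mul_le_mul_of_nonneg_right (le_abs_self C) (by positivity)
      have h6 : ‖H 0‖ ≤ ‖H 0‖ * ‖z‖ ^ (n + 1) :=
        le_mul_of_one_le_right (norm_nonneg _) (one_le_pow₀ h1)
      have h7 : ‖z‖ * ‖dslope H 0 z‖ ≤ ‖z‖ * ((|C| + ‖H 0‖) * ‖z‖ ^ n) := by
        calc ‖z‖ * ‖dslope H 0 z‖ ≤ |C| * ‖z‖ ^ (n + 1) + ‖H 0‖ * ‖z‖ ^ (n + 1) := by linarith
          _ = _ := by ring
      exact le_of_mul_le_mul_left h7 (by linarith))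
    refine ⟨Polynomial.C (H 0) + X * p, fun z => ?_⟩
    rw [eval_add, eval_C, eval_mul, eval_X, ← hp]
    exact hHz z

end Pool.Agent.Helper45.CO
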