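import Pool.Agent.Helper72.CO.Defs

/-!
# The two sides of a compact component of a regular level set in the plane
(module for helper72)
-/

set_option autoImplicit false

open Set Filter Topology Metric Complex

namespace Pool.Agent.Helper45.CO

/-- The local picture. -/
lemma chart (P : ℂ → ℝ) (hP : ContDiff ℝ 1 P) (ζ : ℂ) (hd : fderiv ℝ P ζ ≠ 0) :
    ∃ N : Set ℂ, IsOpen N ∧ ζ ∈ N ∧ IsPreconnected (N ∩ {z | P z = 0}) ∧
      ∀ τ : ℝ, IsPreconnected (N ∩ {z | 0 < τ * P z}) := by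
  set L := fderiv ℝ P ζ with hL
  have hLz : ∀ z : ℂ, L z = z.re * L 1 + z.im * L I := by
    intro z
    conv_lhs => rw [← re_add_im z]
    have e1 : ((z.re : ℂ) + (z.im : ℂ) * I) = z.re • (1 : ℂ) + z.im • I := by
      simp [real_smul]
    rw [e1, map_add, map_smul, map_smul, smul_eq_mul, smul_eq_mul]
  set c : ℂ := (L 1 : ℂ) - I * (L I : ℂ) with hc
  have hcre : ∀ z : ℂ, (c * z).re = L z := by
    intro z
    rw [hLz, hc]
    simp
    ring
  have hc0 : c ≠ 0 := by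
    intro h0
    apply hd
    ext z
    rw [← hcre z, h0]
    simp
  let E : ℂ ≃L[ℝ] ℂ := ((LinearEquiv.smulOfNeZero ℂ ℂ c hc0).restrictScalars ℝ).toContinuousLinearEquiv
  have hE : ∀ z, E z = c * z := fun z => rfl
  let M : ℂ →L[ℝ] ℂ := (Complex.ofRealCLM.comp Complex.imCLM).comp (E : ℂ →L[ℝ] ℂ)
  let F : ℂ → ℂ := fun z => (P z : ℂ) + I * M z
  have hF : HasStrictFDerivAt F (E : ℂ →L[ℝ] ℂ) ζ := by
    have h1 : HasStrictFDerivAt P L ζ := hP.contDiffAt.hasStrictFDerivAt one_ne_zero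
    have h2 : HasStrictFDerivAt (fun z => (P z : ℂ)) (Complex.ofRealCLM.comp L) ζ :=
      Complex.ofRealCLM.hasStrictFDerivAt.comp ζ h1
    have h3 : HasStrictFDerivAt (fun z => I * M z) (I • M) ζ := by
      have := (I • M : ℂ →L[ℝ] ℂ).hasStrictFDerivAt (x := ζ)
      exact this
    have h4 := h2.add h3
    have h5 : Complex.ofRealCLM.comp L + I • M = (E : ℂ →L[ℝ] ℂ) := by
      ext z
      change (L z : ℂ) + I * ((c * z).im : ℂ) = c * z
      rw [← hcre z, mul_comm I, re_add_im]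
    rw [h5] at h4
    exact h4
  let e := hF.toOpenPartialHomeomorph F
  have heF : ∀ z, e z = F z := fun z => by
    rw [hF.toOpenPartialHomeomorph_coe]
  obtain ⟨ε, hε, hball⟩ := Metric.isOpen_iff.1 e.open_target _ hF.image_mem_toOpenPartialHomeomorph_target
  have hFre : ∀ z, (F z).re = P z := by
    intro z
    change ((P z : ℂ) + I * ((c * z).im : ℂ)).re = P z
    simp
  have himg : ∀ S : Set ℂ, (e.source ∩ e ⁻¹' ball (F ζ) ε) ∩ {z | F z ∈ S} =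
      e.symm '' (ball (F ζ) ε ∩ S) := by
    intro S
    ext z
    constructor
    · rintro ⟨⟨h1, h2⟩, h3⟩
      refine ⟨e z, ⟨h2, ?_⟩, e.left_inv h1⟩
      rw [heF]
      exact h3
    · rintro ⟨u, ⟨h1, h2⟩, rfl⟩
      have h3 := hball h1
      refine ⟨⟨e.map_target h3, ?_⟩, ?_⟩
      · change e (e.symm u) ∈ ball (F ζ) ε
        rw [e.right_inv h3]
        exact h1
      · change F (e.symm u) ∈ S
        rw [← heF, e.right_inv h3]
        exact h2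
  have hpre : ∀ S : Set ℂ, Convex ℝ S →
      IsPreconnected ((e.source ∩ e ⁻¹' ball (F ζ) ε) ∩ {z | F z ∈ S}) := by
    intro S hS
    rw [himg]
    exact ((convex_ball _ _).inter hS).isPreconnected.image _
      (e.continuousOn_symm.mono (inter_subset_left.trans hball))
  have hlin : IsLinearMap ℝ (fun u : ℂ => u.re) := Complex.reLm.isLinear
  refine ⟨e.source ∩ e ⁻¹' ball (F ζ) ε, e.isOpen_inter_preimage isOpen_ball,
    ⟨hF.mem_toOpenPartialHomeomorph_source, ?_⟩, ?_, fun τ => ?_⟩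
  · change e ζ ∈ ball (F ζ) ε
    rw [heF]
    exact mem_ball_self hε
  · have := hpre {u | u.re = 0} (convex_hyperplane hlin 0)
    simp only [mem_ofPred_eq, hFre] at this
    exact this
  · have hlin' : IsLinearMap ℝ (fun u : ℂ => τ * u.re) := (τ • Complex.reLm).isLinear
    have := hpre {u | 0 < τ * u.re} (convex_halfSpace_gt hlin' 0)
    simp only [mem_ofPred_eq, hFre] at this
    exact this

/-- Both signs occur near a zero. -/
lemma signs (P : ℂ → ℝ) (hP : ContDiff ℝ 1 P) (ζ : ℂ) (h0 : P ζ = 0) (hd : fderiv ℝ P ζ ≠ 0)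
    (τ : ℝ) (hτ : τ ≠ 0) (O : Set ℂ) (hO : IsOpen O) (hζ : ζ ∈ O) : ∃ z ∈ O, 0 < τ * P z := by
  have h1 : HasStrictFDerivAt P (fderiv ℝ P ζ) ζ := hP.contDiffAt.hasStrictFDerivAt one_ne_zero
  have h2 : (fderiv ℝ P ζ).range = ⊤ := LinearMap.range_eq_top.2 (by
    obtain ⟨v, hv⟩ : ∃ v, fderiv ℝ P ζ v ≠ 0 := by
      by_contra hcon
      push Not at hcon
      exact hd (ContinuousLinearMap.ext hcon)
    intro t
    refine ⟨(t / fderiv ℝ P ζ v) • v, ?_⟩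
    change fderiv ℝ P ζ ((t / fderiv ℝ P ζ v) • v) = t
    rw [map_smul, smul_eq_mul]
    field_simp)
  have h3 := h1.map_nhds_eq_of_surj h2
  have h4 : P '' O ∈ 𝓝 (P ζ) := by
    rw [← h3]
    exact image_mem_map (hO.mem_nhds hζ)
  rw [h0] at h4
  obtain ⟨ε, hε, hball⟩ := Metric.mem_nhds_iff.1 h4
  have h5 : τ / |τ| * (ε / 2) ∈ ball (0 : ℝ) ε := by
    rw [mem_ball, dist_zero_right, norm_mul, norm_div, Real.norm_eq_abs, Real.norm_eq_abs, abs_abs,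
      div_self (abs_ne_zero.2 hτ), Real.norm_eq_abs, abs_of_pos (by positivity)]
    linarith
  obtain ⟨z, hz, hPz⟩ := hball h5
  refine ⟨z, hz, ?_⟩
  rw [hPz]
  have h6 : τ * (τ / |τ| * (ε / 2)) = |τ| * (ε / 2) := by
    have : τ * τ = |τ| * |τ| := (abs_mul_abs_self τ).symm
    have h7 : |τ| ≠ 0 := abs_ne_zero.2 hτ
    field_simp
    rw [pow_two, pow_two]
    exact this
  rw [h6]
  have := abs_pos.2 hτ
  positivity

/-- A property which is locally constant along a preconnected set. -/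
lemma propagate {Γ : Set ℂ} (hΓ : IsPreconnected Γ) (N : ℂ → Set ℂ) (hN : ∀ ζ ∈ Γ, IsOpen (N ζ))
    (hmem : ∀ ζ ∈ Γ, ζ ∈ N ζ) (Q : ℂ → Prop)
    (hQ : ∀ ζ ∈ Γ, ∀ ζ' ∈ Γ, ζ' ∈ N ζ → (Q ζ ↔ Q ζ')) {ζ₀ : ℂ} (h₀ : ζ₀ ∈ Γ) (hQ₀ : Q ζ₀) :
    ∀ ζ ∈ Γ, Q ζ := by
  intro ζ hζ
  by_contra hcon
  have hU : IsOpen (⋃ ξ ∈ {ξ | ξ ∈ Γ ∧ Q ξ}, N ξ) := isOpen_biUnion fun ξ hξ => hN ξ hξ.1
  have hV : IsOpen (⋃ ξ ∈ {ξ | ξ ∈ Γ ∧ ¬Q ξ}, N ξ) := isOpen_biUnion fun ξ hξ => hN ξ hξ.1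
  obtain ⟨ξ, hξΓ, hξU, hξV⟩ := hΓ _ _ hU hV (by
    intro ξ hξ
    by_cases h : Q ξ
    · exact Or.inl (mem_biUnion (x := ξ) ⟨hξ, h⟩ (hmem ξ hξ))
    · exact Or.inr (mem_biUnion (x := ξ) ⟨hξ, h⟩ (hmem ξ hξ)))
    ⟨ζ₀, h₀, mem_biUnion (x := ζ₀) ⟨h₀, hQ₀⟩ (hmem ζ₀ h₀)⟩
    ⟨ζ, hζ, mem_biUnion (x := ζ) ⟨hζ, hcon⟩ (hmem ζ hζ)⟩
  obtain ⟨ξ1, h1, h1'⟩ := mem_iUnion₂.1 hξU
  obtain ⟨ξ2, h2, h2'⟩ := mem_iUnion₂.1 hξV
  exact h2.2 ((hQ ξ2 h2.1 ξ hξΓ h2').2 ((hQ ξ1 h1.1 ξ hξΓ h1').1 h1.2))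

/-- The complement of a disc is connected. -/
lemma outside (R : ℝ) : IsPreconnected {z : ℂ | R < ‖z‖} := by
  have h : {z : ℂ | R < ‖z‖} = (fun p : ℝ × ℝ => (p.1 : ℂ) * exp (p.2 * I)) '' (Ioi R ×ˢ univ) := by
    ext z
    constructor
    · intro hz
      refine ⟨(‖z‖, arg z), ⟨hz, mem_univ _⟩, ?_⟩
      exact norm_mul_exp_arg_mul_I z
    · rintro ⟨⟨ρ, θ⟩, ⟨h1, -⟩, rfl⟩
      have h1' : R < ρ := h1
      change R < ‖(ρ : ℂ) * exp (θ * I)‖
      rw [norm_mul, norm_exp_ofReal_mul_I, mul_one, norm_real, Real.norm_eq_abs]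
      exact h1'.trans_le (le_abs_self ρ)
  rw [h]
  refine (isPreconnected_Ioi.prod isPreconnected_univ).image _ ?_
  fun_prop

theorem geo : Pool.Agent.Helper72.CO.S_GEO := by
  intro P hP hreg Γ Ω x y hx hΓ hcomp hy hΩ hbdd
  have hxΓ : x ∈ Γ := by
    rw [hΓ]
    exact mem_connectedComponentIn hx
  have hΓpre : IsPreconnected Γ := by
    rw [hΓ]
    exact isPreconnected_connectedComponentIn
  have hΓZ : ∀ ζ ∈ Γ, P ζ = 0 := by
    intro ζ hζ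
    rw [hΓ] at hζ
    exact connectedComponentIn_subset {z | P z = 0} x hζ
  have hch : ∀ ζ, ζ ∈ Γ → ∃ N : Set ℂ, IsOpen N ∧ ζ ∈ N ∧ IsPreconnected (N ∩ {z | P z = 0}) ∧
      ∀ τ : ℝ, IsPreconnected (N ∩ {z | 0 < τ * P z}) := fun ζ hζ =>
    chart P hP ζ (hreg ζ (hΓZ ζ hζ))
  choose! N hNo hNm hN0 hNτ using hch
  have hΓN : ∀ ζ ∈ Γ, ∀ z ∈ N ζ, P z = 0 → z ∈ Γ := by
    intro ζ hζ z hz hPz
    have h1 : N ζ ∩ {z | P z = 0} ⊆ connectedComponentIn {z | P z = 0} ζ :=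
      (hN0 ζ hζ).subset_connectedComponentIn ⟨hNm ζ hζ, hΓZ ζ hζ⟩ inter_subset_right
    have h2 : connectedComponentIn {z | P z = 0} x = connectedComponentIn {z | P z = 0} ζ := by
      apply connectedComponentIn_eq
      rw [← hΓ]
      exact hζ
    rw [hΓ, h2]
    exact h1 ⟨hz, hPz⟩
  have hsg : ∀ ζ ∈ Γ, ∀ τ : ℝ, τ ≠ 0 → ∀ O : Set ℂ, IsOpen O → ζ ∈ O → ∃ z ∈ O, 0 < τ * P z :=
    fun ζ hζ => signs P hP ζ (hΓZ ζ hζ) (hreg ζ (hΓZ ζ hζ))
  have hcl : IsClosed Γ := hcomp.isClosed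
  have hO : IsOpen Γᶜ := hcl.isOpen_compl
  have hCo : ∀ c, IsOpen (connectedComponentIn Γᶜ c) := fun c => hO.connectedComponentIn
  have hside : ∀ ζ ∈ Γ, ∀ τ : ℝ, ∀ c w, w ∈ N ζ → 0 < τ * P w → w ∈ connectedComponentIn Γᶜ c →
      N ζ ∩ {z | 0 < τ * P z} ⊆ connectedComponentIn Γᶜ c := by
    intro ζ hζ τ c w hw hτw hwc
    rw [connectedComponentIn_eq hwc]
    refine (hNτ ζ hζ τ).subset_connectedComponentIn ⟨hw, hτw⟩ ?_
    rintro z ⟨-, hz⟩ hzΓ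
    have : 0 < τ * P z := hz
    rw [hΓZ z hzΓ, mul_zero] at this
    exact lt_irrefl _ this
  have hprop : ∀ τ : ℝ, τ ≠ 0 → ∀ c, ∀ ζ₀ ∈ Γ,
      N ζ₀ ∩ {z | 0 < τ * P z} ⊆ connectedComponentIn Γᶜ c →
      ∀ ζ ∈ Γ, N ζ ∩ {z | 0 < τ * P z} ⊆ connectedComponentIn Γᶜ c := by
    intro τ hτ c ζ₀ hζ₀ h₀
    refine propagate hΓpre N hNo hNm
      (fun ζ => N ζ ∩ {z | 0 < τ * P z} ⊆ connectedComponentIn Γᶜ c) ?_ hζ₀ h₀
    intro ζ hζ ζ' hζ' hmem
    obtain ⟨w, ⟨hw1, hw2⟩, hw3⟩ := hsg ζ' hζ' τ hτ (N ζ ∩ N ζ') ((hNo ζ hζ).inter (hNo ζ' hζ'))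
      ⟨hmem, hNm ζ' hζ'⟩
    exact ⟨fun h => hside ζ' hζ' τ c w hw2 hw3 (h ⟨hw1, hw3⟩),
      fun h => hside ζ hζ τ c w hw1 hw3 (h ⟨hw2, hw3⟩)⟩
  have hcC : ∀ c, c ∉ Γ → ∃ τ : ℝ, (τ = 1 ∨ τ = -1) ∧
      ∀ ζ ∈ Γ, N ζ ∩ {z | 0 < τ * P z} ⊆ connectedComponentIn Γᶜ c := by
    intro c hc
    have hcm : c ∈ connectedComponentIn Γᶜ c := mem_connectedComponentIn hc
    have hncl : ¬IsClosed (connectedComponentIn Γᶜ c) := by
      intro hcl'
      rcases isClopen_iff.1 ⟨hcl', hCo c⟩ with h | h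
      · rw [h] at hcm
        exact hcm
      · have h1 : x ∈ connectedComponentIn Γᶜ c := by
          rw [h]
          exact mem_univ _
        exact connectedComponentIn_subset _ _ h1 hxΓ
    obtain ⟨ζ, hζ1, hζ2⟩ : ∃ ζ ∈ closure (connectedComponentIn Γᶜ c),
        ζ ∉ connectedComponentIn Γᶜ c := by
      by_contra hcon
      push Not at hcon
      apply hncl
      rw [← closure_subset_iff_isClosed]
      exact hcon
    have hζΓ : ζ ∈ Γ := by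
      by_contra hcon
      obtain ⟨w, hw1, hw2⟩ := _root_.mem_closure_iff.1 hζ1 _ (hCo ζ) (mem_connectedComponentIn hcon)
      apply hζ2
      rw [connectedComponentIn_eq hw2, ← connectedComponentIn_eq hw1]
      exact mem_connectedComponentIn hcon
    obtain ⟨w, hw1, hw2⟩ := _root_.mem_closure_iff.1 hζ1 _ (hNo ζ hζΓ) (hNm ζ hζΓ)
    have hw3 : P w ≠ 0 := fun h =>
      connectedComponentIn_subset _ _ hw2 (hΓN ζ hζΓ w hw1 h)
    rcases lt_or_gt_of_ne hw3 with h | h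
    · refine ⟨-1, Or.inr rfl, hprop (-1) (by norm_num) c ζ hζΓ
        (hside ζ hζΓ (-1) c w hw1 (by linarith) hw2)⟩
    · refine ⟨1, Or.inl rfl, hprop 1 one_ne_zero c ζ hζΓ
        (hside ζ hζΓ 1 c w hw1 (by linarith) hw2)⟩
  -- the exterior component
  obtain ⟨R, hR⟩ := (hcomp.isBounded.union hbdd).subset_closedBall 0
  obtain ⟨w, hw⟩ : ∃ w : ℂ, R < ‖w‖ := ⟨((|R| + 1 : ℝ) : ℂ), by
    rw [norm_real, Real.norm_eq_abs, abs_of_pos (by positivity)]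
    have := le_abs_self R
    linarith⟩
  have hout : {z : ℂ | R < ‖z‖} ⊆ Γᶜ := by
    intro z hz hzΓ
    have h1 := hR (Or.inl hzΓ)
    rw [mem_closedBall, dist_zero_right] at h1
    exact absurd hz (not_lt.2 h1)
  have hwΓ : w ∉ Γ := hout hw
  set U := connectedComponentIn Γᶜ w with hU
  have hwU : w ∈ U := mem_connectedComponentIn hwΓ
  have hwΩ : w ∉ Ω := by
    intro h
    have h1 := hR (Or.inr h)
    rw [mem_closedBall, dist_zero_right] at h1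
    exact absurd hw (not_lt.2 h1)
  have hdisj : ∀ z, z ∈ Ω → z ∈ U → False := by
    intro z h1 h2
    apply hwΩ
    rw [hΩ] at h1 ⊢
    rw [connectedComponentIn_eq h1, ← connectedComponentIn_eq h2]
    exact hwU
  have hyΩ : y ∈ Ω := by
    rw [hΩ]
    exact mem_connectedComponentIn hy
  obtain ⟨s, hs, hsΩ⟩ := hcC y hy
  rw [← hΩ] at hsΩ
  have hs0 : s ≠ 0 := by
    rcases hs with rfl | rfl
    · exact one_ne_zero
    · norm_num
  obtain ⟨t, ht, htU⟩ := hcC w hwΓ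
  rw [← hU] at htU
  have hst : t = -s := by
    have h1 : t ≠ s := by
      rintro rfl
      obtain ⟨z, hz1, hz2⟩ := hsg x hxΓ t hs0 (N x) (hNo x hxΓ) (hNm x hxΓ)
      exact hdisj z (hsΩ x hxΓ ⟨hz1, hz2⟩) (htU x hxΓ ⟨hz1, hz2⟩)
    rcases hs with rfl | rfl <;> rcases ht with rfl | rfl
    · exact absurd rfl h1
    · rfl
    · norm_num
    · exact absurd rfl h1
  have hcover : ∀ c, c ∉ Γ → c ∈ Ω ∨ c ∈ U := by
    intro c hc
    have hcm : c ∈ connectedComponentIn Γᶜ c := mem_connectedComponentIn hc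
    obtain ⟨τ, hτ, hτC⟩ := hcC c hc
    have hτ0 : τ ≠ 0 := by
      rcases hτ with rfl | rfl
      · exact one_ne_zero
      · norm_num
    obtain ⟨z, hz1, hz2⟩ := hsg x hxΓ τ hτ0 (N x) (hNo x hxΓ) (hNm x hxΓ)
    have h1 := hτC x hxΓ ⟨hz1, hz2⟩
    have h2 : τ = s ∨ τ = t := by
      rw [hst]
      rcases hs with rfl | rfl <;> rcases hτ with rfl | rfl
      · exact Or.inl rfl
      · exact Or.inr rfl
      · right; norm_num
      · exact Or.inl rfl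
    rcases h2 with rfl | rfl
    · left
      have h3 := hsΩ x hxΓ ⟨hz1, hz2⟩
      rw [hΩ] at h3 ⊢
      rw [connectedComponentIn_eq h3, ← connectedComponentIn_eq h1]
      exact hcm
    · right
      have h3 := htU x hxΓ ⟨hz1, hz2⟩
      rw [hU] at h3 ⊢
      rw [connectedComponentIn_eq h3, ← connectedComponentIn_eq h1]
      exact hcm
  have hΩo : IsOpen Ω := by
    rw [hΩ]
    exact hCo y
  have hUcl : ∀ z ∈ U, z ∉ closure Ω := by
    intro z hz hz'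
    obtain ⟨u, hu1, hu2⟩ := _root_.mem_closure_iff.1 hz' U (hCo w) hz
    exact hdisj u hu2 hu1
  have hclo : closure Ω = Ω ∪ Γ := by
    apply Subset.antisymm
    · intro z hz
      by_contra hcon
      have h1 : z ∉ Ω := fun h => hcon (Or.inl h)
      have h2 : z ∉ Γ := fun h => hcon (Or.inr h)
      exact hUcl z ((hcover z h2).resolve_left h1) hz
    · rintro z (hz | hz)
      · exact subset_closure hz
      · rw [_root_.mem_closure_iff]
        intro O hO hzO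
        obtain ⟨u, ⟨hu1, hu2⟩, hu3⟩ := hsg z hz s hs0 (O ∩ N z) (hO.inter (hNo z hz))
          ⟨hzO, hNm z hz⟩
        exact ⟨u, hu1, hsΩ z hz ⟨hu2, hu3⟩⟩
  have hcompl : (closure Ω)ᶜ = U := by
    ext z
    constructor
    · intro hz
      have h1 : z ∉ Γ := by
        intro h
        apply hz
        rw [hclo]
        exact Or.inr h
      exact (hcover z h1).resolve_left (fun h => hz (subset_closure h))
    · intro hz
      exact hUcl z hz
  refine ⟨hΩo, ?_, hclo, ?_, s, hs, ?_⟩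
  · rw [hΩ]
    exact isConnected_connectedComponentIn_iff.2 hy
  · rw [hcompl]
    exact isConnected_connectedComponentIn_iff.2 hwΓ
  · intro ζ hζ
    filter_upwards [(hNo ζ hζ).mem_nhds (hNm ζ hζ)] with z hz
    refine ⟨hΓN ζ hζ z hz, fun h => hsΩ ζ hζ ⟨hz, h⟩, fun h => ?_⟩
    apply hUcl
    apply htU ζ hζ
    refine ⟨hz, ?_⟩
    change 0 < t * P z
    rw [hst]
    linarith

end Pool.Agent.Helper45.CO
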