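import Pool.Agent.Helper72.CO.Defs3

/-!
# Germs of analytic functions
(module for helper72)
-/

set_option autoImplicit false

open Set Filter Topology Metric Complex Polynomial

namespace Pool.Agent.Helper45.CO

/-- The ring of the germs of analytic functions. -/
noncomputable def AG (z₀ : ℂ) : Subring (Germ (𝓝 z₀) ℂ) where
  carrier := {g | ∃ f : ℂ → ℂ, AnalyticAt ℂ f z₀ ∧ (f : Germ (𝓝 z₀) ℂ) = g}
  mul_mem' := by
    rintro _ _ ⟨f, hf, rfl⟩ ⟨g, hg, rfl⟩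
    exact ⟨fun z => f z * g z, hf.mul hg, rfl⟩
  one_mem' := ⟨fun _ => 1, analyticAt_const, rfl⟩
  add_mem' := by
    rintro _ _ ⟨f, hf, rfl⟩ ⟨g, hg, rfl⟩
    exact ⟨fun z => f z + g z, hf.add hg, rfl⟩
  zero_mem' := ⟨fun _ => 0, analyticAt_const, rfl⟩
  neg_mem' := by
    rintro _ ⟨f, hf, rfl⟩
    exact ⟨fun z => -f z, hf.neg, rfl⟩

/-- The germ of a function. -/
noncomputable def gm (z₀ : ℂ) (f : ℂ → ℂ) (hf : AnalyticAt ℂ f z₀) : AG z₀ := ⟨(f : Germ (𝓝 z₀) ℂ), f, hf, rfl⟩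

lemma gm_eq_zero {z₀ : ℂ} {f : ℂ → ℂ} (hf : AnalyticAt ℂ f z₀) :
    gm z₀ f hf = 0 ↔ ∀ᶠ z in 𝓝 z₀, f z = 0 := by
  rw [Subtype.ext_iff]
  change (f : Germ (𝓝 z₀) ℂ) = ((fun _ => 0 : ℂ → ℂ) : Germ (𝓝 z₀) ℂ) ↔ _
  rw [Germ.coe_eq]
  rfl

lemma gm_surj {z₀ : ℂ} (g : AG z₀) : ∃ (f : ℂ → ℂ) (hf : AnalyticAt ℂ f z₀), gm z₀ f hf = g := by
  obtain ⟨f, hf, h⟩ := g.2
  exact ⟨f, hf, Subtype.ext h⟩

instance (z₀ : ℂ) : IsDomain (AG z₀) := by
  have h1 : Nontrivial (AG z₀) := by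
    refine ⟨⟨1, 0, ?_⟩⟩
    intro h
    have h2 : gm z₀ (fun _ => 1) analyticAt_const = 0 := h
    rw [gm_eq_zero] at h2
    obtain ⟨z, hz⟩ := h2.exists
    exact one_ne_zero hz
  have h2 : NoZeroDivisors (AG z₀) := by
    refine ⟨fun {x y} h => ?_⟩
    obtain ⟨f, hf, rfl⟩ := gm_surj x
    obtain ⟨g, hg, rfl⟩ := gm_surj y
    have h3 : gm z₀ (fun z => f z * g z) (hf.mul hg) = 0 := h
    rw [gm_eq_zero] at h3
    rw [gm_eq_zero, gm_eq_zero]
    rcases hf.eventually_eq_zero_or_eventually_ne_zero with h4 | h4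
    · exact Or.inl h4
    · rcases hg.eventually_eq_zero_or_eventually_ne_zero with h5 | h5
      · exact Or.inr h5
      · exfalso
        obtain ⟨z, ⟨h6, h7⟩, h8⟩ := ((h4.and h5).and (h3.filter_mono nhdsWithin_le_nhds)).exists
        exact mul_ne_zero h6 h7 h8
  exact NoZeroDivisors.to_isDomain _

/-- Polynomials as germs. -/
noncomputable def pg (z₀ : ℂ) : ℂ[X] →+* AG z₀ where
  toFun p := gm z₀ (fun z => p.eval z) (p.differentiable.analyticAt z₀)
  map_one' := by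
    apply Subtype.ext
    change ((fun z => (1 : ℂ[X]).eval z : ℂ → ℂ) : Germ (𝓝 z₀) ℂ) = ((fun _ => 1 : ℂ → ℂ) : Germ (𝓝 z₀) ℂ)
    simp only [eval_one]
  map_mul' p q := by
    apply Subtype.ext
    change ((fun z => (p * q).eval z : ℂ → ℂ) : Germ (𝓝 z₀) ℂ) =
      ((fun z => p.eval z * q.eval z : ℂ → ℂ) : Germ (𝓝 z₀) ℂ)
    simp only [eval_mul]
  map_zero' := by
    apply Subtype.ext
    change ((fun z => (0 : ℂ[X]).eval z : ℂ → ℂ) : Germ (𝓝 z₀) ℂ) = ((fun _ => 0 : ℂ → ℂ) : Germ (𝓝 z₀) ℂ)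
    simp only [eval_zero]
  map_add' p q := by
    apply Subtype.ext
    change ((fun z => (p + q).eval z : ℂ → ℂ) : Germ (𝓝 z₀) ℂ) =
      ((fun z => p.eval z + q.eval z : ℂ → ℂ) : Germ (𝓝 z₀) ℂ)
    simp only [eval_add]

lemma pg_injective (z₀ : ℂ) : Function.Injective (pg z₀) := by
  rw [injective_iff_map_eq_zero]
  intro p hp
  have h1 : gm z₀ (fun z => p.eval z) (p.differentiable.analyticAt z₀) = 0 := hp
  rw [gm_eq_zero] at h1
  apply Polynomial.eq_zero_of_infinite_isRoot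
  exact infinite_of_mem_nhds z₀ h1

theorem germ : Pool.Agent.Helper72.CO.S_GERM := by
  classical
  intro z₀
  let L := AlgebraicClosure (FractionRing (AG z₀))
  have hinj : Function.Injective (algebraMap (AG z₀) L) := by
    rw [IsScalarTower.algebraMap_eq (AG z₀) (FractionRing (AG z₀)) L]
    exact (algebraMap (FractionRing (AG z₀)) L).injective.comp
      (IsFractionRing.injective (AG z₀) (FractionRing (AG z₀)))
  have hinj2 : Function.Injective ((algebraMap (AG z₀) L).comp (pg z₀)) := hinj.comp (pg_injective z₀)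
  let j : (ℂ → ℂ) → L := fun f => if h : AnalyticAt ℂ f z₀ then algebraMap (AG z₀) L (gm z₀ f h) else 0
  have hj : ∀ (f : ℂ → ℂ) (h : AnalyticAt ℂ f z₀), j f = algebraMap (AG z₀) L (gm z₀ f h) :=
    fun f h => dif_pos h
  refine ⟨L, inferInstance, (IsFractionRing.lift hinj2).toAlgebra, inferInstance, j, ?_, ?_, ?_, ?_⟩
  · intro f g hf hg
    rw [hj f hf, hj g hg, hj (fun z => f z + g z) (hf.add hg), ← map_add]
    rfl
  · intro f g hf hg
    rw [hj f hf, hj g hg, hj (fun z => f z * g z) (hf.mul hg), ← map_mul]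
    rfl
  · intro f hf
    rw [hj f hf, map_eq_zero_iff _ hinj, gm_eq_zero]
  · intro p
    rw [hj _ (p.differentiable.analyticAt z₀)]
    change _ = IsFractionRing.lift hinj2 (algebraMap ℂ[X] (FractionRing ℂ[X]) p)
    rw [IsFractionRing.lift_algebraMap]
    rfl

end Pool.Agent.Helper45.CO
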