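import Pool.Agent.Helper72.CO.Defs3

/-!
# Growth at infinity
(module for helper72)
-/

set_option autoImplicit false

open Set Filter Topology Metric Complex Polynomial

namespace Pool.Agent.Helper45.CO

open Pool.Agent.Helper72.CO

/-- A bound for the roots of a cubic. -/
lemma root_bound {a B C D v : ℂ} {M : ℝ} (ha : a ≠ 0) (hB : ‖B‖ ≤ M) (hC : ‖C‖ ≤ M) (hD : ‖D‖ ≤ M)
    (h : a * v ^ 3 + B * v ^ 2 + C * v + D = 0) : ‖v‖ ≤ max 1 (3 * M / ‖a‖) := by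
  by_cases h1 : ‖v‖ ≤ 1
  · exact h1.trans (le_max_left _ _)
  · push Not at h1
    have hM : 0 ≤ M := (norm_nonneg _).trans hB
    have ha' : 0 < ‖a‖ := norm_pos_iff.2 ha
    refine le_trans ?_ (le_max_right _ _)
    rw [le_div_iff₀ ha']
    have e : a * v ^ 3 = -(B * v ^ 2 + C * v + D) := by linear_combination h
    have h2 : ‖a‖ * ‖v‖ ^ 3 ≤ M * ‖v‖ ^ 2 + M * ‖v‖ + M := by
      rw [← norm_pow, ← norm_mul, e, norm_neg]
      refine (norm_add_le _ _).trans (add_le_add ((norm_add_le _ _).trans (add_le_add ?_ ?_)) hD)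
      · rw [norm_mul, norm_pow]
        exact mul_le_mul_of_nonneg_right hB (by positivity)
      · rw [norm_mul]
        exact mul_le_mul_of_nonneg_right hC (norm_nonneg _)
    have h3 : ‖v‖ ≤ ‖v‖ ^ 2 := by nlinarith
    have h4 : (1 : ℝ) ≤ ‖v‖ ^ 2 := by nlinarith
    have h5 : ‖a‖ * ‖v‖ ^ 3 ≤ 3 * M * ‖v‖ ^ 2 := by nlinarith
    have h6 : 0 < ‖v‖ ^ 2 := by positivity
    have h7 : (‖v‖ * ‖a‖) * ‖v‖ ^ 2 ≤ (3 * M) * ‖v‖ ^ 2 := by
      calc (‖v‖ * ‖a‖) * ‖v‖ ^ 2 = ‖a‖ * ‖v‖ ^ 3 := by ring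
        _ ≤ _ := h5
    exact le_of_mul_le_mul_right h7 h6

theorem inf : Pool.Agent.Helper72.CO.S_INF := by
  intro a b c d hN R s hs hroot
  obtain ⟨ha, hb, hc, hd, -, hinf⟩ := hN
  have eb : ∀ z : ℂ, b.eval z = b.coeff 0 + b.coeff 1 * z := by
    intro z
    rw [eval_eq_sum_range' (Nat.lt_succ_of_le hb)]
    simp [Finset.sum_range_succ]
  have ec : ∀ z : ℂ, c.eval z = c.coeff 0 + c.coeff 1 * z + c.coeff 2 * z ^ 2 := by
    intro z
    rw [eval_eq_sum_range' (Nat.lt_succ_of_le hc)]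
    simp [Finset.sum_range_succ]
  have ed : ∀ z : ℂ, d.eval z = d.coeff 0 + d.coeff 1 * z + d.coeff 2 * z ^ 2 + d.coeff 3 * z ^ 3 := by
    intro z
    rw [eval_eq_sum_range' (Nat.lt_succ_of_le hd)]
    simp [Finset.sum_range_succ]
  set ε : ℝ := 1 / (|R| + 1) with hε
  have hε0 : 0 < ε := by positivity
  have hbig : ∀ t : ℂ, t ∈ ball (0 : ℂ) ε → t ≠ 0 → R < ‖t⁻¹‖ := by
    intro t ht h0
    rw [mem_ball, dist_zero_right] at ht
    have h1 : 0 < ‖t‖ := norm_pos_iff.2 h0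
    rw [norm_inv]
    have h2 : |R| + 1 < ‖t‖⁻¹ := by
      rw [lt_inv_comm₀ (by positivity) h1]
      rw [hε, one_div] at ht
      exact ht
    have := le_abs_self R
    linarith
  let B : ℂ → ℂ := fun t => b.coeff 1 + b.coeff 0 * t
  let C : ℂ → ℂ := fun t => c.coeff 2 + c.coeff 1 * t + c.coeff 0 * t ^ 2
  let D : ℂ → ℂ := fun t => d.coeff 3 + d.coeff 2 * t + d.coeff 1 * t ^ 2 + d.coeff 0 * t ^ 3
  let v : ℂ → ℂ := fun t => t * s t⁻¹
  have hv : ∀ t ∈ ball (0 : ℂ) ε, t ≠ 0 → a * v t ^ 3 + B t * v t ^ 2 + C t * v t + D t = 0 := by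
    intro t ht h0
    have h1 := hroot t⁻¹ (hbig t ht h0)
    rw [Ps, eb, ec, ed] at h1
    have e : a * v t ^ 3 + B t * v t ^ 2 + C t * v t + D t = t ^ 3 * (a * s t⁻¹ ^ 3 +
        (b.coeff 0 + b.coeff 1 * t⁻¹) * s t⁻¹ ^ 2 +
        (c.coeff 0 + c.coeff 1 * t⁻¹ + c.coeff 2 * t⁻¹ ^ 2) * s t⁻¹ +
        (d.coeff 0 + d.coeff 1 * t⁻¹ + d.coeff 2 * t⁻¹ ^ 2 + d.coeff 3 * t⁻¹ ^ 3)) := by
      simp only [v, B, C, D]
      generalize s t⁻¹ = w
      field_simp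
      ring
    rw [e, h1, mul_zero]
  have hvd : DifferentiableOn ℂ v (ball (0 : ℂ) ε \ {0}) := by
    intro t ht
    have h0 : t ≠ 0 := ht.2
    have h1 : DifferentiableAt ℂ s t⁻¹ := by
      refine (hs t⁻¹ (hbig t ht.1 h0)).differentiableAt ?_
      exact (isOpen_lt continuous_const continuous_norm).mem_nhds (hbig t ht.1 h0)
    have h2 : DifferentiableAt ℂ (fun t : ℂ => s t⁻¹) t :=
      DifferentiableAt.comp (g := s) (f := fun t : ℂ => t⁻¹) t h1 (differentiableAt_inv h0)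
    exact (differentiableAt_id.mul h2).differentiableWithinAt
  obtain ⟨M, hM⟩ : ∃ M : ℝ, ∀ t ∈ ball (0 : ℂ) ε, ‖B t‖ ≤ M ∧ ‖C t‖ ≤ M ∧ ‖D t‖ ≤ M := by
    have hcB : Continuous fun t => max ‖B t‖ (max ‖C t‖ ‖D t‖) := by
      have h1 : Continuous B := by fun_prop
      have h2 : Continuous C := by fun_prop
      have h3 : Continuous D := by fun_prop
      exact h1.norm.max (h2.norm.max h3.norm)
    obtain ⟨M, hM⟩ := (isCompact_closedBall (0 : ℂ) ε).bddAbove_image hcB.continuousOn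
    refine ⟨M, fun t ht => ?_⟩
    have := hM ⟨t, ball_subset_closedBall ht, rfl⟩
    simp only [max_le_iff] at this
    exact ⟨this.1, this.2.1, this.2.2⟩
  have hbdd : BddAbove (norm ∘ v '' (ball (0 : ℂ) ε \ {0})) := by
    refine ⟨max 1 (3 * M / ‖a‖), ?_⟩
    rintro _ ⟨t, ht, rfl⟩
    obtain ⟨h1, h2, h3⟩ := hM t ht.1
    exact root_bound ha h1 h2 h3 (hv t ht.1 ht.2)
  let V : ℂ → ℂ := Function.update v 0 (limUnder (𝓝[≠] (0 : ℂ)) v)
  have hball : ball (0 : ℂ) ε ∈ 𝓝 (0 : ℂ) := ball_mem_nhds _ hε0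
  have hVd : DifferentiableOn ℂ V (ball (0 : ℂ) ε) :=
    Complex.differentiableOn_update_limUnder_of_bddAbove hball hvd hbdd
  have hVne : ∀ t : ℂ, t ≠ 0 → V t = v t := fun t ht => Function.update_of_ne ht _ _
  have hVda : DifferentiableAt ℂ V 0 := (hVd 0 (mem_ball_self hε0)).differentiableAt hball
  let G : ℂ → ℂ := fun t => a * V t ^ 3 + B t * V t ^ 2 + C t * V t + D t
  have hGne : ∀ t ∈ ball (0 : ℂ) ε, t ≠ 0 → G t = 0 := by
    intro t ht h0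
    change a * V t ^ 3 + B t * V t ^ 2 + C t * V t + D t = 0
    rw [hVne t h0]
    exact hv t ht h0
  have hBd : HasDerivAt B (b.coeff 0) 0 := by
    have := ((hasDerivAt_id (0 : ℂ)).const_mul (b.coeff 0)).const_add (b.coeff 1)
    exact this.congr_deriv (mul_one _)
  have hCd : HasDerivAt C (c.coeff 1) 0 := by
    have e1 := ((hasDerivAt_id (0 : ℂ)).const_mul (c.coeff 1)).const_add (c.coeff 2)
    have e2 := (hasDerivAt_pow 2 (0 : ℂ)).const_mul (c.coeff 0)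
    exact (e1.add e2).congr_deriv (by simp)
  have hDd : HasDerivAt D (d.coeff 2) 0 := by
    have e1 := ((hasDerivAt_id (0 : ℂ)).const_mul (d.coeff 2)).const_add (d.coeff 3)
    have e2 := (hasDerivAt_pow 2 (0 : ℂ)).const_mul (d.coeff 1)
    have e3 := (hasDerivAt_pow 3 (0 : ℂ)).const_mul (d.coeff 0)
    exact ((e1.add e2).add e3).congr_deriv (by simp)
  have hVD := hVda.hasDerivAt
  have hGd : HasDerivAt G (a * (3 * V 0 ^ 2 * deriv V 0) +
      (b.coeff 0 * V 0 ^ 2 + B 0 * (2 * V 0 * deriv V 0)) +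
      (c.coeff 1 * V 0 + C 0 * deriv V 0) + d.coeff 2) 0 := by
    have e3 : HasDerivAt (fun t => V t ^ 3) (3 * V 0 ^ 2 * deriv V 0) 0 := by
      exact (hVD.pow 3).congr_deriv (by simp)
    have e2 : HasDerivAt (fun t => V t ^ 2) (2 * V 0 * deriv V 0) 0 := by
      exact (hVD.pow 2).congr_deriv (by simp)
    exact (((e3.const_mul a).add (hBd.mul e2)).add (hCd.mul hVD)).add hDd
  have hG0 : G 0 = 0 := by
    have h1 : Tendsto G (𝓝[≠] (0 : ℂ)) (𝓝 (G 0)) :=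
      hGd.continuousAt.tendsto.mono_left nhdsWithin_le_nhds
    have h2 : Tendsto G (𝓝[≠] (0 : ℂ)) (𝓝 0) := by
      refine tendsto_const_nhds.congr' ?_
      filter_upwards [nhdsWithin_le_nhds hball, self_mem_nhdsWithin] with z hz hne
      exact (hGne z hz hne).symm
    exact tendsto_nhds_unique h1 h2
  have hGd0 : a * (3 * V 0 ^ 2 * deriv V 0) +
      (b.coeff 0 * V 0 ^ 2 + B 0 * (2 * V 0 * deriv V 0)) +
      (c.coeff 1 * V 0 + C 0 * deriv V 0) + d.coeff 2 = 0 := by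
    have h1 : G =ᶠ[𝓝 0] fun _ => 0 := by
      filter_upwards [hball] with z hz
      by_cases h : z = 0
      · rw [h]; exact hG0
      · exact hGne z hz h
    exact hGd.unique ((hasDerivAt_const (0 : ℂ) (0 : ℂ)).congr_of_eventuallyEq h1)
  have hB0 : B 0 = b.coeff 1 := by simp [B]
  have hC0 : C 0 = c.coeff 2 := by simp [C]
  have hD0 : D 0 = d.coeff 3 := by simp [D]
  let Qv : ℂ → ℂ := fun t => 3 * a * V t ^ 2 + 2 * B t * V t + C t
  have hQ0 : Qv 0 ≠ 0 := by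
    intro h0
    have h1 : 3 * a * V 0 ^ 2 + 2 * B 0 * V 0 + C 0 = 0 := h0
    have h2 : a * V 0 ^ 3 + B 0 * V 0 ^ 2 + C 0 * V 0 + D 0 = 0 := hG0
    rw [hB0, hC0] at h1
    rw [hB0, hC0, hD0] at h2
    apply hinf (V 0) h2 h1
    rw [hB0, hC0] at hGd0
    linear_combination hGd0 - deriv V 0 * h1
  have hQc : ContinuousAt Qv 0 := by
    have h1 : ContinuousAt V 0 := hVda.continuousAt
    have h2 : ContinuousAt B 0 := hBd.continuousAt
    have h3 : ContinuousAt C 0 := hCd.continuousAt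
    exact ((continuousAt_const.mul (h1.pow 2)).add ((continuousAt_const.mul h2).mul h1)).add h3
  have hpos : 0 < ‖Qv 0‖ := norm_pos_iff.2 hQ0
  have hev : ∀ᶠ t in 𝓝 (0 : ℂ), ‖Qv 0‖ / 2 < ‖Qv t‖ :=
    hQc.norm.eventually_const_lt (by linarith)
  obtain ⟨η, hη, hηb⟩ := Metric.mem_nhds_iff.1 (Filter.inter_mem hev hball)
  refine ⟨‖Qv 0‖ / 2, 2 / η, by positivity, fun z hz => ?_⟩
  have hz0 : 0 < ‖z‖ := lt_of_lt_of_le (by positivity) hz
  have hzne : z ≠ 0 := norm_pos_iff.1 hz0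
  have ht : z⁻¹ ∈ ball (0 : ℂ) η := by
    rw [mem_ball, dist_zero_right, norm_inv, inv_lt_comm₀ hz0 hη]
    refine lt_of_lt_of_le ?_ hz
    rw [div_eq_mul_inv]
    have : 0 < η⁻¹ := inv_pos.2 hη
    linarith
  obtain ⟨h1, h2⟩ := hηb ht
  have h3 : ‖Qv 0‖ / 2 < ‖Qv z⁻¹‖ := h1
  have hVz : V z⁻¹ = z⁻¹ * s z := by
    rw [hVne _ (inv_ne_zero hzne)]
    change z⁻¹ * s z⁻¹⁻¹ = _
    rw [inv_inv]
  have e : Pw a b c z (s z) = z ^ 2 * Qv z⁻¹ := by
    change Pw a b c z (s z) = z ^ 2 * (3 * a * V z⁻¹ ^ 2 + 2 * (b.coeff 1 + b.coeff 0 * z⁻¹) * V z⁻¹ +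
      (c.coeff 2 + c.coeff 1 * z⁻¹ + c.coeff 0 * z⁻¹ ^ 2))
    rw [hVz, Pw, eb, ec]
    generalize s z = w
    field_simp
    ring
  rw [e, norm_mul, norm_pow, mul_comm]
  exact mul_le_mul_of_nonneg_left h3.le (by positivity)

end Pool.Agent.Helper45.CO
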