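import Pool.Agent.Helper72.CO.Defs3

/-!
# Irreducibility over the rational functions
(module for helper72)
-/

set_option autoImplicit false

open Set Filter Topology Metric Complex Polynomial

namespace Pool.Agent.Helper45.CO

open Pool.Agent.Helper72.CO

/-- There is no polynomial root. -/
lemma no_poly_root (a : ℂ) (b c d : ℂ[X]) (hN : Nons a b c d) (q : ℂ[X])
    (h : C a * q ^ 3 + b * q ^ 2 + c * q + d = 0) : False := by
  obtain ⟨ha, hb, hc, hd, haff, hinf⟩ := hN
  have hq : q.natDegree ≤ 1 := by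
    by_contra hcon
    push Not at hcon
    have e : C a * q ^ 3 = -(b * q ^ 2 + c * q + d) := by linear_combination h
    have h1 : (C a * q ^ 3).natDegree = 3 * q.natDegree := by
      rw [natDegree_C_mul ha, natDegree_pow]
    have h2 : (b * q ^ 2 + c * q + d).natDegree ≤ 2 * q.natDegree + 1 := by
      refine (natDegree_add_le _ _).trans (max_le ((natDegree_add_le _ _).trans (max_le ?_ ?_)) ?_)
      · refine natDegree_mul_le.trans ?_
        rw [natDegree_pow]
        omega
      · refine natDegree_mul_le.trans ?_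
        omega
      · omega
    have h3 := congrArg natDegree e
    rw [h1, natDegree_neg] at h3
    omega
  have eb : ∀ z : ℂ, b.eval z = b.coeff 0 + b.coeff 1 * z := by
    intro z
    rw [eval_eq_sum_range' (Nat.lt_succ_of_le hb)]
    simp [Finset.sum_range_succ]
  have ec : ∀ z : ℂ, c.eval z = c.coeff 0 + c.coeff 1 * z + c.coeff 2 * z ^ 2 := by
    intro z
    rw [eval_eq_sum_range' (Nat.lt_succ_of_le hc)]
    simp [Finset.sum_range_succ]
  have ed : ∀ z : ℂ, d.eval z = d.coeff 0 + d.coeff 1 * z + d.coeff 2 * z ^ 2 + d.coeff 3 * z ^ 3 := by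
    intro z
    rw [eval_eq_sum_range' (Nat.lt_succ_of_le hd)]
    simp [Finset.sum_range_succ]
  have eq : ∀ z : ℂ, q.eval z = q.coeff 0 + q.coeff 1 * z := by
    intro z
    rw [eval_eq_sum_range' (Nat.lt_succ_of_le hq)]
    simp [Finset.sum_range_succ]
  have eb' : ∀ z : ℂ, (derivative b).eval z = b.coeff 1 := by
    intro z
    have h1 : (derivative b).natDegree < 1 := by
      have := natDegree_derivative_le b
      omega
    rw [eval_eq_sum_range' h1, Finset.sum_range_one, coeff_derivative]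
    push_cast
    ring
  have ec' : ∀ z : ℂ, (derivative c).eval z = c.coeff 1 + 2 * c.coeff 2 * z := by
    intro z
    have h1 : (derivative c).natDegree < 2 := by
      have := natDegree_derivative_le c
      omega
    rw [eval_eq_sum_range' h1, Finset.sum_range_succ, Finset.sum_range_one, coeff_derivative,
      coeff_derivative]
    push_cast
    ring
  have ed' : ∀ z : ℂ, (derivative d).eval z = d.coeff 1 + 2 * d.coeff 2 * z +
      3 * d.coeff 3 * z ^ 2 := by
    intro z
    have h1 : (derivative d).natDegree < 3 := by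
      have := natDegree_derivative_le d
      omega
    rw [eval_eq_sum_range' h1, Finset.sum_range_succ, Finset.sum_range_succ, Finset.sum_range_one,
      coeff_derivative, coeff_derivative, coeff_derivative]
    push_cast
    ring
  set b0 := b.coeff 0
  set b1 := b.coeff 1
  set c0 := c.coeff 0
  set c1 := c.coeff 1
  set c2 := c.coeff 2
  set d0 := d.coeff 0
  set d1 := d.coeff 1
  set d2 := d.coeff 2
  set d3 := d.coeff 3
  set m := q.coeff 0
  set l := q.coeff 1
  have hz : ∀ z : ℂ, a * (m + l * z) ^ 3 + (b0 + b1 * z) * (m + l * z) ^ 2 +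
      (c0 + c1 * z + c2 * z ^ 2) * (m + l * z) + (d0 + d1 * z + d2 * z ^ 2 + d3 * z ^ 3) = 0 := by
    intro z
    have := congrArg (fun p => eval z p) h
    simp only [eval_add, eval_mul, eval_pow, eval_C, eval_zero, eb, ec, ed, eq] at this
    exact this
  have z0 := hz 0
  have z1 := hz 1
  have z2 := hz (-1)
  have z3 := hz 2
  have k0 : a * m ^ 3 + b0 * m ^ 2 + c0 * m + d0 = 0 := by linear_combination z0
  have k3 : a * l ^ 3 + b1 * l ^ 2 + c2 * l + d3 = 0 := by
    linear_combination (1 / 6) * z3 - (1 / 2) * z1 + (1 / 2) * z0 - (1 / 6) * z2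
  have k2 : 3 * a * l ^ 2 * m + 2 * b1 * l * m + b0 * l ^ 2 + c2 * m + c1 * l + d2 = 0 := by
    linear_combination (1 / 2) * z1 + (1 / 2) * z2 - z0
  have k1 : 3 * a * l * m ^ 2 + b1 * m ^ 2 + 2 * b0 * l * m + c1 * m + c0 * l + d1 = 0 := by
    linear_combination (1 / 2) * z1 - (1 / 2) * z2 - k3
  by_cases hg : 3 * a * l ^ 2 + 2 * b1 * l + c2 = 0
  · apply hinf l k3 hg
    linear_combination k2 - m * hg
  · obtain ⟨z, hz⟩ : ∃ z : ℂ, (3 * a * l ^ 2 + 2 * b1 * l + c2) * z ^ 2 +
        (6 * a * l * m + 2 * b1 * m + 2 * b0 * l + c1) * z + (3 * a * m ^ 2 + 2 * b0 * m + c0) = 0 := by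
      set g2 := 3 * a * l ^ 2 + 2 * b1 * l + c2
      set g1 := 6 * a * l * m + 2 * b1 * m + 2 * b0 * l + c1
      set g0 := 3 * a * m ^ 2 + 2 * b0 * m + c0
      have hdeg : (C g2 * X ^ 2 + C g1 * X + C g0 : ℂ[X]).degree = 2 :=
        degree_quadratic hg
      obtain ⟨z, hz⟩ := IsAlgClosed.exists_root (C g2 * X ^ 2 + C g1 * X + C g0 : ℂ[X])
        (by rw [hdeg]; norm_num)
      refine ⟨z, ?_⟩
      rw [IsRoot.def] at hz
      simpa using hz
    have hPw : Pw a b c z (m + l * z) = 0 := by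
      rw [Pw, eb, ec]
      linear_combination hz
    refine haff z (m + l * z) ?_ hPw ?_
    · rw [Ps, eb, ec, ed]
      linear_combination k0 + z * k1 + z ^ 2 * k2 + z ^ 3 * k3
    · rw [Pw, eb, ec] at hPw
      rw [Pz, eb', ec', ed']
      linear_combination k1 + 2 * z * k2 + 3 * z ^ 2 * k3 - l * hPw

theorem irr : Pool.Agent.Helper72.CO.S_IRR := by
  intro a b c d hN K _ _ _
  have ha := hN.ha
  set p : K[X] := X ^ 3 + C (algebraMap ℂ[X] K (C a⁻¹ * b)) * X ^ 2 +
      C (algebraMap ℂ[X] K (C a⁻¹ * c)) * X + C (algebraMap ℂ[X] K (C a⁻¹ * d)) with hp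
  have hmon : p.Monic := by
    rw [hp]
    monicity!
  have hdeg : p.natDegree = 3 := by
    rw [hp]
    compute_degree!
  rw [hmon.irreducible_iff_roots_eq_zero_of_degree_le_three (by omega) (by omega)]
  rw [Multiset.eq_zero_iff_forall_notMem]
  intro r hr
  rw [mem_roots hmon.ne_zero, IsRoot.def] at hr
  have hr' : r ^ 3 + algebraMap ℂ[X] K (C a⁻¹ * b) * r ^ 2 + algebraMap ℂ[X] K (C a⁻¹ * c) * r +
      algebraMap ℂ[X] K (C a⁻¹ * d) = 0 := by
    rw [hp] at hr
    simpa only [eval_add, eval_mul, eval_pow, eval_X, eval_C] using hr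
  have hint : IsIntegral ℂ[X] r := by
    refine ⟨X ^ 3 + C (C a⁻¹ * b) * X ^ 2 + C (C a⁻¹ * c) * X + C (C a⁻¹ * d), ?_, ?_⟩
    · monicity!
    · simp only [eval₂_add, eval₂_mul, eval₂_pow, eval₂_X, eval₂_C]
      exact hr'
  obtain ⟨q, hq⟩ := IsIntegrallyClosed.isIntegral_iff.1 hint
  subst hq
  have h1 : q ^ 3 + (C a⁻¹ * b) * q ^ 2 + (C a⁻¹ * c) * q + C a⁻¹ * d = 0 := by
    apply IsFractionRing.injective ℂ[X] K
    simp only [map_add, map_mul, map_pow, map_zero]
    simpa only [map_mul] using hr'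
  apply no_poly_root a b c d hN q
  have h2 : (C a : ℂ[X]) * C a⁻¹ = 1 := by
    rw [← C_mul, mul_inv_cancel₀ ha, C_1]
  linear_combination C a * h1 - (b * q ^ 2 + c * q + d) * h2

end Pool.Agent.Helper45.CO
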